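import Mathlib

/-!
Parameterized squares in strings: definitions and a computable normal form.
-/

namespace Pool.Agent.Lib.P435f72

/-- `x ≈ y`: some bijection `f` of the alphabet maps `x` letter by letter onto `y`. -/
def PEq {α : Type*} (x y : List α) : Prop := ∃ f : Equiv.Perm α, x.map f = y

/-- A parameterized square: a word `x ++ y` with `x` non-empty and `x ≈ y`. -/
def IsPSquare {α : Type*} (w : List α) : Prop :=
  ∃ x y : List α, w = x ++ y ∧ x ≠ [] ∧ PEq x y

/-- The set of `≈`-classes of the parameterized squares that occur in `s` as contiguous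
factors. -/
def classes {α : Type*} (s : List α) : Set (Set (List α)) :=
  {c | ∃ w, w <:+: s ∧ IsPSquare w ∧ c = {v | PEq w v}}

/-- `PS s`: the number of pairwise non-equivalent parameterized squares occurring in `s`. -/
noncomputable def PS {α : Type*} (s : List α) : ℕ := (classes s).ncard

variable {α : Type*}

theorem PEq.refl (x : List α) : PEq x x := ⟨Equiv.refl _, by simp⟩

theorem PEq.symm {x y : List α} (h : PEq x y) : PEq y x := by
  obtain ⟨f, rfl⟩ := h
  exact ⟨f.symm, by simp⟩

theorem PEq.trans {x y z : List α} (h : PEq x y) (h' : PEq y z) : PEq x z := by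
  obtain ⟨f, rfl⟩ := h
  obtain ⟨g, rfl⟩ := h'
  exact ⟨f.trans g, by simp⟩

theorem PEq.length_eq {x y : List α} (h : PEq x y) : x.length = y.length := by
  obtain ⟨f, rfl⟩ := h
  simp

/-- The normal form: every letter is replaced by the index of its first occurrence. -/
def pat [DecidableEq α] (x : List α) : List ℕ := x.map (fun a => x.idxOf a)

@[simp] theorem pat_length [DecidableEq α] (x : List α) : (pat x).length = x.length := by
  simp [pat]

theorem idxOf_map_of_inj {β : Type*} [DecidableEq α] [DecidableEq β] {f : α → β}
    (hf : Function.Injective f) (x : List α) (a : α) :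
    (x.map f).idxOf (f a) = x.idxOf a := by
  induction x with
  | nil => simp
  | cons b t ih =>
    by_cases h : b = a
    · subst h; simp
    · have h' : f b ≠ f a := fun e => h (hf e)
      simp [List.idxOf_cons, ih, h, h']

theorem pat_map_of_inj {β : Type*} [DecidableEq α] [DecidableEq β] {f : α → β}
    (hf : Function.Injective f) (x : List α) : pat (x.map f) = pat x := by
  simp only [pat, List.map_map]
  apply List.map_congr_left
  intro a _
  simp [idxOf_map_of_inj hf]

/-- A finite partial injection extends to a permutation. -/
theorem exists_perm_extending (S : Finset α) (g : α → α) (hg : Set.InjOn g S) :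
    ∃ f : Equiv.Perm α, ∀ a ∈ S, f a = g a := by
  classical
  set T : Finset α := S ∪ S.image g with hT
  -- work inside the finite type T
  let p : T → Prop := fun a => (a : α) ∈ S
  let q : T → Prop := fun a => (a : α) ∈ S.image g
  let e : {x : T // p x} ≃ {x : T // q x} := by
    refine Equiv.ofBijective
      (fun x => ⟨⟨g x.1.1, ?_⟩, ?_⟩) ⟨?_, ?_⟩
    · exact Finset.mem_union_right _ (Finset.mem_image_of_mem g x.2)
    · exact Finset.mem_image_of_mem g x.2
    · intro x y hxy
      have h1 : g x.1.1 = g y.1.1 := by
        have := congrArg (fun z => (z.1.1 : α)) hxy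
        simpa using this
      have h2 := hg x.2 y.2 h1
      exact Subtype.ext (Subtype.ext h2)
    · intro y
      obtain ⟨a, ha, hay⟩ := Finset.mem_image.1 y.2
      exact ⟨⟨⟨a, Finset.mem_union_left _ ha⟩, ha⟩, Subtype.ext (Subtype.ext hay)⟩
  let F : Equiv.Perm T := e.extendSubtype
  refine ⟨Equiv.Perm.ofSubtype F, ?_⟩
  intro a ha
  have haT : a ∈ T := Finset.mem_union_left _ ha
  have h1 : Equiv.Perm.ofSubtype F a = F ⟨a, haT⟩ :=
    Equiv.Perm.ofSubtype_apply_of_mem F haT
  rw [h1]
  have h2 : F ⟨a, haT⟩ = e ⟨⟨a, haT⟩, ha⟩ := e.extendSubtype_apply_of_mem _ ha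
  rw [h2]
  rfl

theorem peq_iff_pat [DecidableEq α] (x y : List α) : PEq x y ↔ pat x = pat y := by
  constructor
  · rintro ⟨f, rfl⟩
    exact (pat_map_of_inj f.injective x).symm
  · intro h
    have hlen : x.length = y.length := by
      have := congrArg List.length h
      simpa using this
    have hidx : ∀ i (hi : i < x.length),
        x.idxOf (x[i]) = y.idxOf (y[i]'(hlen ▸ hi)) := by
      intro i hi
      have h1 : (pat x)[i]? = (pat y)[i]? := by rw [h]
      have hi' : i < y.length := hlen ▸ hi
      simpa [pat, List.getElem?_eq_getElem hi, List.getElem?_eq_getElem hi'] using h1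
    -- the partial injection
    rcases x with _ | ⟨a0, t⟩
    · have : y = [] := by
        apply List.eq_nil_of_length_eq_zero
        rw [← hlen]; rfl
      subst this
      exact PEq.refl _
    · set x := a0 :: t with hx
      let g : α → α := fun a => if h : x.idxOf a < y.length then y[x.idxOf a] else a
      have hgx : ∀ i (hi : i < x.length), g (x[i]) = y[i]'(hlen ▸ hi) := by
        intro i hi
        have hi' : i < y.length := hlen ▸ hi
        have hlt : x.idxOf (x[i]) < x.length :=
          List.idxOf_lt_length_iff.2 (List.getElem_mem hi)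
        have hlt' : x.idxOf (x[i]) < y.length := hlen ▸ hlt
        have : g (x[i]) = y[x.idxOf (x[i])] := by
          simp only [g]; rw [dif_pos hlt']
        rw [this]
        have hid := hidx i hi
        have : y[x.idxOf (x[i])] = y[y.idxOf (y[i]'hi')]'(by rw [← hid]; exact hlt') := by
          congr 1
        rw [this]
        exact List.getElem_idxOf _
      have hinj : Set.InjOn g (x.toFinset : Set α) := by
        intro a ha b hb hab
        have ha' : a ∈ x := by simpa using ha
        have hb' : b ∈ x := by simpa using hb
        obtain ⟨i, hi, rfl⟩ := List.getElem_of_mem ha'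
        obtain ⟨j, hj, rfl⟩ := List.getElem_of_mem hb'
        rw [hgx i hi, hgx j hj] at hab
        have h1 := hidx i hi
        have h2 := hidx j hj
        have h3 : x.idxOf (x[i]) = x.idxOf (x[j]) := by rw [h1, h2, hab]
        exact (List.idxOf_inj (List.getElem_mem hi)).1 h3
      obtain ⟨f, hf⟩ := exists_perm_extending x.toFinset g hinj
      refine ⟨f, ?_⟩
      apply List.ext_getElem
      · simpa using hlen
      · intro i h1 h2
        have hi : i < x.length := by simpa using h1
        rw [List.getElem_map, hf _ (by simp), hgx i hi]

end Pool.Agent.Lib.P435f72
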