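import Pool.Agent.Lib.P435f72.Basic

/-!
A computable count of the non-equivalent parameterized squares of a string.
-/

namespace Pool.Agent.Lib.P435f72

variable {α : Type*}

/-- Boolean test for being a parameterized square. -/
def isSqB [DecidableEq α] (w : List α) : Bool :=
  !w.isEmpty && (w.length % 2 == 0 &&
    pat (w.take (w.length / 2)) == pat (w.drop (w.length / 2)))

theorem isSqB_iff [DecidableEq α] (w : List α) : isSqB w = true ↔ IsPSquare w := by
  constructor
  · intro h
    simp only [isSqB, Bool.and_eq_true, Bool.not_eq_true', beq_iff_eq] at h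
    obtain ⟨h1, h2, h3⟩ := h
    refine ⟨w.take (w.length / 2), w.drop (w.length / 2), by simp, ?_, (peq_iff_pat _ _).2 h3⟩
    intro h0
    have hl : (w.take (w.length / 2)).length = 0 := by rw [h0]; rfl
    rw [List.length_take] at hl
    have hw : w ≠ [] := by
      intro hw; rw [hw] at h1; simp at h1
    have : 0 < w.length := List.length_pos_iff.2 hw
    omega
  · rintro ⟨x, y, rfl, hx, hxy⟩
    have hlen := hxy.length_eq
    have h2 : (x ++ y).length = 2 * x.length := by
      rw [List.length_append, ← hlen]; ring
    have h3 : (x ++ y).length / 2 = x.length := by rw [h2]; omega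
    simp only [isSqB, Bool.and_eq_true, Bool.not_eq_true', beq_iff_eq]
    refine ⟨?_, ?_, ?_⟩
    · rcases x with _ | ⟨a, t⟩
      · exact absurd rfl hx
      · simp
    · rw [h2]; omega
    · rw [h3, List.take_left, List.drop_left]
      exact (peq_iff_pat _ _).1 hxy

/-- All factors (with repetitions). -/
def factors (s : List α) : List (List α) := s.tails.flatMap List.inits

theorem mem_factors {s w : List α} : w ∈ factors s ↔ w <:+: s := by
  rw [factors, List.mem_flatMap, List.infix_iff_prefix_suffix]
  constructor
  · rintro ⟨t, ht, hw⟩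
    exact ⟨t, (List.mem_inits _ _).1 hw, (List.mem_tails _ _).1 ht⟩
  · rintro ⟨t, hw, ht⟩
    exact ⟨t, (List.mem_tails _ _).2 ht, (List.mem_inits _ _).2 hw⟩

/-- Normal forms of the parameterized squares occurring in `s` (with repetitions). -/
def pats [DecidableEq α] (s : List α) : List (List ℕ) := ((factors s).filter isSqB).map pat

theorem mem_pats [DecidableEq α] {s : List α} {t : List ℕ} :
    t ∈ pats s ↔ ∃ w, w <:+: s ∧ IsPSquare w ∧ pat w = t := by
  simp only [pats, List.mem_map, List.mem_filter, mem_factors, isSqB_iff, and_assoc]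

theorem classes_eq [DecidableEq α] (s : List α) :
    classes s = (fun t : List ℕ => {v : List α | pat v = t}) '' ((pats s).toFinset : Set (List ℕ)) := by
  ext c
  simp only [classes, Set.mem_ofPred_eq, Set.mem_image, List.coe_toFinset, mem_pats]
  constructor
  · rintro ⟨w, h1, h2, rfl⟩
    refine ⟨pat w, ⟨w, h1, h2, rfl⟩, ?_⟩
    ext v
    simp only [Set.mem_ofPred_eq, peq_iff_pat]
    exact eq_comm
  · rintro ⟨t, ⟨w, h1, h2, rfl⟩, rfl⟩
    refine ⟨w, h1, h2, ?_⟩
    ext v
    simp only [Set.mem_ofPred_eq, peq_iff_pat]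
    exact eq_comm

theorem PS_eq [DecidableEq α] (s : List α) : PS s = (pats s).toFinset.card := by
  rw [PS, classes_eq, Set.InjOn.ncard_image, Set.ncard_coe_finset]
  intro t ht t' ht' h
  rw [List.coe_toFinset] at ht ht'
  obtain ⟨w, -, -, rfl⟩ := mem_pats.1 ht
  have : w ∈ {v : List α | pat v = t'} := by
    have hw : w ∈ {v : List α | pat v = pat w} := rfl
    rw [show {v : List α | pat v = pat w} = {v : List α | pat v = t'} from h] at hw
    exact hw
  exact this

theorem PS_eq_dedup [DecidableEq α] (s : List α) : PS s = (pats s).dedup.length := by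
  rw [PS_eq, List.card_toFinset]

theorem classes_finite (s : List α) : (classes s).Finite := by
  classical
  rw [classes_eq]
  exact (Finset.finite_toSet _).image _

/-- `pats` is invariant under injective relabelling. -/
theorem isSqB_map {β : Type*} [DecidableEq α] [DecidableEq β] {f : α → β}
    (hf : Function.Injective f) (w : List α) : isSqB (w.map f) = isSqB w := by
  simp only [isSqB, List.length_map, ← List.map_take, ← List.map_drop, pat_map_of_inj hf,
    List.isEmpty_map]

theorem pats_map {β : Type*} [DecidableEq α] [DecidableEq β] {f : α → β}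
    (hf : Function.Injective f) (s : List α) : (pats (s.map f)).toFinset = (pats s).toFinset := by
  ext t
  simp only [List.mem_toFinset, pats, List.mem_map, List.mem_filter, mem_factors]
  constructor
  · rintro ⟨w, ⟨hw, h2⟩, rfl⟩
    obtain ⟨u, hu, rfl⟩ : ∃ u, u <:+: s ∧ w = u.map f := by
      obtain ⟨a, b, hab⟩ := hw
      have := hab.symm
      rw [List.map_eq_append_iff] at this
      obtain ⟨l1, l2, h1, h3, h4⟩ := this
      rw [List.map_eq_append_iff] at h3
      obtain ⟨l3, l4, h5, h6, h7⟩ := h3
      exact ⟨l4, ⟨l3, l2, by rw [h1, h5]⟩, h7.symm⟩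
    exact ⟨u, ⟨hu, by rwa [isSqB_map hf] at h2⟩, (pat_map_of_inj hf u).symm⟩
  · rintro ⟨w, ⟨hw, h2⟩, rfl⟩
    exact ⟨w.map f, ⟨hw.map f, by rwa [isSqB_map hf]⟩, pat_map_of_inj hf w⟩

theorem PS_map {β : Type*} {f : α → β} (hf : Function.Injective f) (s : List α) :
    PS (s.map f) = PS s := by
  classical
  rw [PS_eq, PS_eq, pats_map hf]

end Pool.Agent.Lib.P435f72
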