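import Pool.Agent.Lib.P435f72.Small

/-!
Long strings with many non-equivalent parameterized squares.
-/

namespace Pool.Agent.Lib.P435f72

variable {α : Type*}

theorem pat_of_nodup [DecidableEq α] {x : List α} (hx : x.Nodup) :
    pat x = List.range x.length := by
  apply List.ext_getElem (by simp)
  intro i h1 h2
  have hi : i < x.length := by simpa using h1
  simp only [pat, List.getElem_map, List.getElem_range]
  exact hx.idxOf_getElem i hi

theorem peq_of_nodup {x y : List α} (hx : x.Nodup) (hy : y.Nodup)
    (h : x.length = y.length) : PEq x y := by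
  classical
  rw [peq_iff_pat, pat_of_nodup hx, pat_of_nodup hy, h]

theorem PEq.getElem_eq_iff {x y : List α} (h : PEq x y) (i j : ℕ) (hi : i < x.length)
    (hj : j < x.length) (hi' : i < y.length) (hj' : j < y.length) :
    x[i] = x[j] ↔ y[i] = y[j] := by
  obtain ⟨f, rfl⟩ := h
  simp

/-- A finite family of pairwise inequivalent parameterized squares bounds `PS` from below. -/
theorem card_le_PS {ι : Type*} (I : Finset ι) (w : ι → List α) (s : List α)
    (h1 : ∀ i ∈ I, w i <:+: s) (h2 : ∀ i ∈ I, IsPSquare (w i))
    (h3 : ∀ i ∈ I, ∀ j ∈ I, PEq (w i) (w j) → i = j) : I.card ≤ PS s := by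
  classical
  rw [PS_eq]
  apply Finset.card_le_card_of_injOn (fun i => pat (w i))
  · intro i hi
    have hi' : i ∈ I := hi
    simp only [List.coe_toFinset, Set.mem_ofPred_eq, mem_pats]
    exact ⟨w i, h1 i hi', h2 i hi', rfl⟩
  · intro i hi j hj hij
    exact h3 i hi j hj ((peq_iff_pat _ _).2 hij)

/-- The letter at position `i`: letters are pairwise distinct, except that position
`D + 2k` repeats the letter `k` of position `k`, for `k < D`. -/
def letter (D i : ℕ) : ℕ := if D ≤ i ∧ i < 3 * D ∧ (i - D) % 2 = 0 then (i - D) / 2 else i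

theorem letter_lt {D i : ℕ} (h : i < D) : letter D i = i := by
  rw [letter, if_neg]; omega

theorem letter_second {D k : ℕ} (h : k < D) : letter D (D + 2 * k) = k := by
  rw [letter, if_pos]
  · omega
  · omega

theorem letter_inj_gap {D i j : ℕ} (hij : i < j) (h : letter D i = letter D j) :
    j = D + 2 * i ∧ i < D := by
  unfold letter at h
  split_ifs at h <;> omega

/-- The string. -/
def str (D n : ℕ) : List ℕ := (List.range' 0 n).map (letter D)

/-- The window starting at `a` of length `m`. -/
def win (D a m : ℕ) : List ℕ := (List.range' a m).map (letter D)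

theorem win_length (D a m : ℕ) : (win D a m).length = m := by simp [win]

theorem win_getElem (D a m i : ℕ) (hi : i < (win D a m).length) :
    (win D a m)[i] = letter D (a + i) := by
  simp [win]

theorem win_append (D a m k : ℕ) : win D a (m + k) = win D a m ++ win D (a + m) k := by
  rw [win, win, win, ← List.map_append]
  congr 1
  rw [show a + m = a + 1 * m by ring, List.range'_append]

theorem win_infix (D a m n : ℕ) (h : a + m ≤ n) : win D a m <:+: str D n := by
  refine ⟨win D 0 a, win D (a + m) (n - (a + m)), ?_⟩
  have h1 : win D 0 a ++ win D a m = win D 0 (a + m) := by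
    have := win_append D 0 a m
    rw [Nat.zero_add] at this
    exact this.symm
  have h2 : win D 0 (a + m) ++ win D (a + m) (n - (a + m)) = win D 0 n := by
    have := win_append D 0 (a + m) (n - (a + m))
    rw [Nat.zero_add, Nat.add_sub_cancel' h] at this
    exact this.symm
  rw [h1, h2]
  rfl

theorem win_nodup (D a m : ℕ) (h : m ≤ D) : (win D a m).Nodup := by
  rw [win]
  apply List.Nodup.map_on _ (List.nodup_range')
  intro i hi j hj hij
  rw [List.mem_range'_1] at hi hj
  rcases lt_trichotomy i j with hlt | rfl | hlt
  · have := letter_inj_gap hlt hij; omega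
  · rfl
  · have := letter_inj_gap hlt hij.symm; omega

theorem win_isPSquare (D a l : ℕ) (h0 : 0 < l) (h : l ≤ D) : IsPSquare (win D a (2 * l)) := by
  refine ⟨win D a l, win D (a + l) l, ?_, ?_, ?_⟩
  · rw [two_mul, win_append]
  · intro h1
    have := congrArg List.length h1
    rw [win_length] at this
    simp at this
    omega
  · exact peq_of_nodup (win_nodup D a l h) (win_nodup D (a + l) l h) (by simp [win_length])

theorem win_inequiv {D a a' l l' : ℕ} (hl : l ≤ D) (ha : a + D < 2 * l) (ha' : a' + D < 2 * l')
    (h : PEq (win D a (2 * l)) (win D a' (2 * l'))) : l = l' ∧ a = a' := by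
  have hlen := h.length_eq
  rw [win_length, win_length] at hlen
  have hll : l = l' := by omega
  subst hll
  refine ⟨rfl, ?_⟩
  have e := h.getElem_eq_iff 0 (D + a') (by rw [win_length]; omega) (by rw [win_length]; omega)
    (by rw [win_length]; omega) (by rw [win_length]; omega)
  simp only [win_getElem] at e
  have h2 : letter D (a' + 0) = letter D (a' + (D + a')) := by
    rw [Nat.add_zero, letter_lt (by omega), show a' + (D + a') = D + 2 * a' by ring,
      letter_second (by omega)]
  have h3 := e.2 h2
  have h4 := letter_inj_gap (by omega) h3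
  omega

theorem quad_lower (j n : ℕ) (hn : 6 * j ≤ n + 1) : j * (j + 1) ≤ PS (str (2 * j) n) := by
  classical
  have key := card_le_PS (α := ℕ)
    ((Finset.range j).sigma (fun t => Finset.range (2 * (t + 1))))
    (fun p => win (2 * j) p.2 (2 * (j + (p.1 + 1)))) (str (2 * j) n) ?_ ?_ ?_
  · have hcard : ((Finset.range j).sigma (fun t => Finset.range (2 * (t + 1)))).card
        = j * (j + 1) := by
      rw [Finset.card_sigma]
      simp only [Finset.card_range]
      clear key hn
      induction j with
      | zero => simp
      | succ j ih => rw [Finset.sum_range_succ, ih]; ring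
    rw [hcard] at key
    exact key
  · intro p hp
    rw [Finset.mem_sigma, Finset.mem_range, Finset.mem_range] at hp
    apply win_infix
    omega
  · intro p hp
    rw [Finset.mem_sigma, Finset.mem_range, Finset.mem_range] at hp
    apply win_isPSquare <;> omega
  · intro p hp q hq h
    rw [Finset.mem_sigma, Finset.mem_range, Finset.mem_range] at hp hq
    have := win_inequiv (D := 2 * j) (by omega) (by omega) (by omega) h
    obtain ⟨h1, h2⟩ := this
    have h3 : p.1 = q.1 := by omega
    rcases p with ⟨p1, p2⟩
    rcases q with ⟨q1, q2⟩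
    simp only at h3 h2
    subst h3 h2
    rfl

theorem str_length (D n : ℕ) : (str D n).length = n := by simp [str]

/-- A string of length `34` all of whose prefixes of length at least `7` violate the
inequality. -/
def S34 : List ℕ :=
  [0, 1, 2, 3, 2, 4, 3, 5, 6, 2, 5, 3, 6, 1, 0, 5, 6, 1, 2, 4, 0, 6, 2, 3, 7, 8, 9, 6, 3, 1,
    7, 8, 5, 9]

theorem S34_check : ∀ n ∈ List.range 35, 7 ≤ n →
    (S34.take n).length = n ∧ n ≤ (pats (S34.take n)).dedup.length := by
  decide +kernel

theorem exists_large (n : ℕ) (hn : 7 ≤ n) : ∃ s : List ℕ, s.length = n ∧ n ≤ PS s := by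
  rcases Nat.lt_or_ge n 35 with h | h
  · obtain ⟨h1, h2⟩ := S34_check n (List.mem_range.2 h) hn
    exact ⟨S34.take n, h1, by rw [PS_eq_dedup]; exact h2⟩
  · refine ⟨str (2 * ((n + 1) / 6)) n, str_length _ _, ?_⟩
    have h1 := quad_lower ((n + 1) / 6) n (by omega)
    refine le_trans ?_ h1
    generalize hj : (n + 1) / 6 = j
    have h2 : 6 ≤ j := by omega
    have h3 : n ≤ 6 * j + 4 := by omega
    nlinarith

end Pool.Agent.Lib.P435f72
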