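import Pool.Agent.Lib.P435f72.Count

/-!
All strings of length at most `6` satisfy the inequality.
-/

namespace Pool.Agent.Lib.P435f72

variable {α : Type*}

theorem idxOf_map_of_injOn {β : Type*} [DecidableEq α] [DecidableEq β] {f : α → β}
    (x : List α) (a : α) (hf : ∀ b ∈ x, f b = f a → b = a) :
    (x.map f).idxOf (f a) = x.idxOf a := by
  induction x with
  | nil => simp
  | cons b t ih =>
    have ih' := ih (fun c hc => hf c (List.mem_cons_of_mem _ hc))
    by_cases h : b = a
    · subst h; simp
    · have h' : f b ≠ f a := fun e => h (hf b (by simp) e)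
      simp [ih', h, h']

theorem pat_pat [DecidableEq α] (x : List α) : pat (pat x) = pat x := by
  have : pat x = x.map (fun a => x.idxOf a) := rfl
  rw [this]
  conv_lhs => rw [pat]
  rw [List.map_map]
  apply List.map_congr_left
  intro a ha
  simp only [Function.comp]
  apply idxOf_map_of_injOn x a
  intro b hb hba
  exact ((List.idxOf_inj hb).1 hba)

theorem PS_pat_nat (s : List ℕ) : PS (pat s) = PS s := by
  obtain ⟨f, hf⟩ : PEq s (pat s) := (peq_iff_pat _ _).2 (pat_pat s).symm
  rw [← hf, PS_map f.injective]

theorem exists_nat_copy (s : List α) : ∃ t : List ℕ, t.length = s.length ∧ PS t = PS s := by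
  classical
  have hfin : Finite {x // x ∈ s} := (List.finite_toSet s).to_subtype
  obtain ⟨e, he⟩ := Countable.exists_injective_nat {x // x ∈ s}
  refine ⟨s.attach.map e, by simp, ?_⟩
  rw [PS_map he]
  conv_rhs => rw [← List.attach_map_subtype_val s]
  rw [PS_map Subtype.val_injective]

/-- All lists `t` of length `n` with `t[i] ≤ i`. -/
def allPats : ℕ → List (List ℕ)
  | 0 => [[]]
  | n + 1 => (allPats n).flatMap (fun t => (List.range (n + 1)).map (fun c => t ++ [c]))

theorem mem_allPats : ∀ (n : ℕ) (t : List ℕ), t.length = n →
    (∀ i (hi : i < t.length), t[i] ≤ i) → t ∈ allPats n := by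
  intro n
  induction n with
  | zero =>
    intro t ht _
    have : t = [] := List.eq_nil_of_length_eq_zero ht
    simp [allPats, this]
  | succ n ih =>
    intro t ht h
    rcases List.eq_nil_or_concat t with rfl | ⟨u, c, rfl⟩
    · simp at ht
    · have hu : u.length = n := by simpa using ht
      rw [allPats, List.mem_flatMap]
      refine ⟨u, ih u hu ?_, ?_⟩
      · intro i hi
        have := h i (by simp; omega)
        simpa [List.getElem_append_left hi] using this
      · rw [List.mem_map]
        refine ⟨c, ?_, by simp⟩
        have := h n (by simp; omega)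
        rw [List.mem_range]
        have h2 : (u.concat c)[n]'(by simp; omega) = c := by
          subst hu; simp
        rw [h2] at this
        omega

theorem idxOf_getElem_le [DecidableEq α] : ∀ (s : List α) (i : ℕ) (hi : i < s.length),
    s.idxOf s[i] ≤ i
  | [], i, hi => by simp at hi
  | a :: t, 0, _ => by simp
  | a :: t, i + 1, hi => by
    have hi' : i < t.length := by simpa using hi
    have ih := idxOf_getElem_le t i hi'
    rw [List.getElem_cons_succ, List.idxOf_cons]
    cases (a == t[i])
    · simpa using ih
    · simp

theorem pat_mem_allPats [DecidableEq α] (s : List α) : pat s ∈ allPats s.length := by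
  apply mem_allPats _ _ (by simp)
  intro i hi
  have hi' : i < s.length := by simpa using hi
  simp only [pat, List.getElem_map]
  exact idxOf_getElem_le s i hi'

theorem small_check : ∀ n ∈ [1, 2, 3, 4, 5, 6], ∀ t ∈ allPats n, (pats t).dedup.length < n := by
  decide +kernel

theorem PS_lt_of_length_le_six (s : List α) (h1 : 1 ≤ s.length) (h6 : s.length ≤ 6) :
    PS s < s.length := by
  obtain ⟨t, ht, hPS⟩ := exists_nat_copy s
  rw [← hPS, ← PS_pat_nat, PS_eq_dedup, ← ht]
  rw [← ht] at h1 h6
  apply small_check _ _ _ (pat_mem_allPats t)
  interval_cases t.length <;> simp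

end Pool.Agent.Lib.P435f72
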